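import Pool.Agent.Lib.MP_b5021c_nt.IfaceS4a

/-!
# Board b5, row U_NQ3: numerical steps in class `P`, no big factor, loads of type A1
-/

namespace Pool.Agent.B5.H23

open Pool.Agent.B5

theorem nq3_sqrt : (17 : ℝ) / 10 ≤ Real.sqrt 3 :=
  Real.le_sqrt_of_sq_le (by norm_num)

/-- `sqrt 3 ^ (g + 1) ≥ 2 g + 1`. -/
theorem nq3_pow (g : ℕ) : 2 * (g : ℝ) + 1 ≤ Real.sqrt 3 ^ (g + 1) := by
  have h3 := nq3_sqrt
  have hsq : Real.sqrt 3 ^ 2 = 3 := Real.sq_sqrt (by norm_num)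
  have h32 : Real.sqrt 3 ≤ 2 := Real.sqrt_le_iff.2 ⟨by norm_num, by norm_num⟩
  have h : ∀ n : ℕ, 2 * ((n : ℝ) + 2) + 1 ≤ Real.sqrt 3 ^ (n + 3) := by
    intro n
    induction n with
    | zero =>
      have e : Real.sqrt 3 ^ (0 + 3) = Real.sqrt 3 ^ 2 * Real.sqrt 3 := by ring
      rw [e, hsq]
      push_cast
      linarith
    | succ n ih =>
      have e : Real.sqrt 3 ^ (n + 1 + 3) = Real.sqrt 3 ^ (n + 3) * Real.sqrt 3 := by ring
      rw [e]
      push_cast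
      have hn : (0 : ℝ) ≤ n := Nat.cast_nonneg n
      nlinarith
  match g with
  | 0 =>
    push_cast
    simp only [pow_one]
    linarith
  | 1 =>
    have e : Real.sqrt 3 ^ (1 + 1) = Real.sqrt 3 ^ 2 := by ring
    rw [e, hsq]
    push_cast
    norm_num
  | n + 2 =>
    have := h n
    have e : Real.sqrt 3 ^ (n + 2 + 1) = Real.sqrt 3 ^ (n + 3) := by ring
    rw [e]
    push_cast
    linarith

theorem nq3_g (x : ℝ) (hx : 1 ≤ x) (g : ℕ) (hg : g ≤ 4 ∨ Real.sqrt 3 ^ (g + 1) ≤ x) :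
    (g : ℝ) ≤ 4 + x / 2 := by
  rcases hg with hg | hg
  · have : (g : ℝ) ≤ 4 := by exact_mod_cast hg
    linarith
  · have := nq3_pow g
    linarith

/-- The sum over the factors. -/
theorem nq3_sum (hS : Su3S) (m : ℕ) (N' : Fin m → ℝ) (hN : ∀ i, Real.sqrt 3 ≤ N' i) :
    (∏ i, N' i = 1 ∧ ∑ i, bV3 (N' i) = 0) ∨
    ((17 : ℝ) / 10 ≤ ∏ i, N' i ∧ ∑ i, bV3 (N' i) ≤ 2 * ∏ i, N' i + 4800) := by
  have h3 := nq3_sqrt
  match m, N', hN with
  | 0, N', _ => exact Or.inl ⟨by simp, by simp⟩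
  | m + 1, N', hN =>
    right
    have hN1 : ∀ i, 1 ≤ N' i := fun i => by linarith [hN i]
    have hp : (17 : ℝ) / 10 ≤ ∏ i, N' i := by
      rw [Fin.prod_univ_succ]
      have h1 : (1 : ℝ) ≤ ∏ i : Fin m, N' i.succ := by
        calc (1 : ℝ) = ∏ _i : Fin m, (1 : ℝ) := by simp
          _ ≤ _ := Finset.prod_le_prod (fun _ _ => zero_le_one) (fun i _ => hN1 _)
      have h2 := hN 0
      nlinarith
    refine ⟨hp, ?_⟩
    have h4 := hS (m + 1) N' (by omega) hN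
    have h5 : bV3 (∏ i, N' i) ≤ 2 * ∏ i, N' i + 4800 := by
      unfold bV3
      refine (min_le_right _ _).trans ?_
      rw [max_eq_right (by linarith)]
    have hm : (0 : ℝ) ≤ m := Nat.cast_nonneg m
    push_cast at h4
    linarith

theorem nq3 (hS : Su3S) : Nq3S := by
  refine ⟨?_, ?_, ?_⟩
  · intro θ x l g hθ hx hl hg
    have := nq3_g x hx g hg
    linarith
  · intro θ m N' l hθ hN hp hl
    have hl0 : (0 : ℝ) ≤ l := Nat.cast_nonneg l
    rcases nq3_sum hS m N' hN with ⟨h1, h2⟩ | ⟨h1, h2⟩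
    · rw [h1] at hl
      rw [h2]
      linarith
    · obtain ⟨p, hpd⟩ : ∃ p : ℝ, p = ∏ i, N' i := ⟨_, rfl⟩
      rw [← hpd] at hp hl h1 h2
      have h3 : ((l : ℝ) + 2 * p) * p ≤ (2 * θ + 44) * p := by
        nlinarith [mul_nonneg (show (0 : ℝ) ≤ p - 1 by linarith)
          (show (0 : ℝ) ≤ θ + 21 - p by linarith)]
      have h4 := le_of_mul_le_mul_right h3 (by linarith)
      linarith
  · intro θ x m N' l g hθ hx hx2 hN hp hl hg
    have hg' := nq3_g x hx g hg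
    have hl0 : (0 : ℝ) ≤ l := Nat.cast_nonneg l
    rcases nq3_sum hS m N' hN with ⟨h1, h2⟩ | ⟨h1, h2⟩
    · rw [h1] at hl
      rw [h2]
      linarith
    · obtain ⟨p, hpd⟩ : ∃ p : ℝ, p = ∏ i, N' i := ⟨_, rfl⟩
      rw [← hpd] at hp hl h1 h2
      have h3 : ((l : ℝ) + 2 * p + x / 2) * p ≤ (2 * θ + 100) * p := by
        nlinarith [mul_nonneg (show (0 : ℝ) ≤ p - 17 / 10 by linarith)
          (show (0 : ℝ) ≤ 72 / 100 * θ + 1 - p by linarith),
          mul_nonneg (show (0 : ℝ) ≤ p by linarith)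
          (show (0 : ℝ) ≤ 72 / 100 * θ + 1 - x by linarith)]
      have h4 := le_of_mul_le_mul_right h3 (by linarith)
      linarith

end Pool.Agent.B5.H23
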